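import Pool.Agent.TH426.Pw.XX
import Pool.Agent.TH426.Pw.PiE

/-!
# The numbers `(π q) ^ (π q)` for almost all rational numbers `q`

Let `y_x > 0` and `z_x` (`x ≤ k`) be real numbers such that no nonzero integer vector `c`, `|c_x| ≤ d`,
satisfies both `∑ c_x z_x = 0` and `∑ c_x z_x log y_x = 0`. Let `n ≥ 1`, `0 < a_j < b_j`, `A ≥ 0`,
`δ > 2 - 2 / ((d + 1) ^ (k n + 1) + 1)`. There are `B` and `C` such that for all `T ≥ 1`, for all but at most
`C T ^ (2 (n - 1) + δ)` of the `n`-tuples `q` of rationals `q_j` in `[a_j, b_j]` with denominators at most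
`T`, the numbers `π` and `(y_x q_j) ^ (z_x q_j)` satisfy `|P| > T ^ (-B)` for every nonzero integer polynomial
`P` of degree at most `d` in each variable and with coefficients at most `T ^ A`.

Examples: the numbers `π`, `(π q_j) ^ (π q_j)`, `(e q_j) ^ (e q_j)`, all `d`; the numbers `π`,
`(π q_j) ^ (π q_j)`, `(e q_j) ^ (e q_j)`, `(π q_j) ^ (e q_j)`, `(e q_j) ^ (π q_j)`, `d ≤ 100`.
-/

set_option autoImplicit false

namespace Pool.Agent.Results.MP_7fde5c_nt.RationalMultiples

/-- The number `π` and the numbers `(y_x q_j) ^ (z_x q_j)`. -/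
noncomputable def numbers {n k : ℕ} (y z : Fin k → ℝ) (q : Fin n → ℚ) (s : Option (Fin n × Fin k)) : ℝ :=
  match s with
  | none => Real.pi
  | some (j, x) => (y x * q j) ^ (z x * q j)

/-- The `n`-tuples `q` of rationals in the `[a_j, b_j]` with denominators at most `T` for which there is a nonzero
polynomial with integer coefficients, of degree at most `d` in each variable, with coefficients of absolute value at
most `T ^ A`, whose value at the point `numbers` has absolute value at most `T ^ (-B)`. -/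
def Exceptional {n k : ℕ} (d : ℕ) (y z : Fin k → ℝ) (a b : Fin n → ℝ) (A B T : ℝ) : Set (Fin n → ℚ) :=
  {q | (∀ j, a j ≤ q j ∧ (q j : ℝ) ≤ b j ∧ ((q j).den : ℝ) ≤ T) ∧
    ∃ P : MvPolynomial (Option (Fin n × Fin k)) ℤ, P ≠ 0 ∧ (∀ s, P.degreeOf s ≤ d) ∧
      (∀ m, |((P.coeff m : ℤ) : ℝ)| ≤ T ^ A) ∧
      |MvPolynomial.aeval (numbers y z q) P| ≤ T ^ (-B)}

/-- There are few exceptional tuples, for all `n ≥ 1`, `0 < a_j < b_j`, `A ≥ 0` and all admissible `δ`. -/
def AlmostAll {k : ℕ} (d : ℕ) (y z : Fin k → ℝ) : Prop :=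
  ∀ (n : ℕ) (a b : Fin n → ℝ) (A δ : ℝ), 1 ≤ n → (∀ j, 0 < a j) → (∀ j, a j < b j) → 0 ≤ A →
    2 - 2 / (((d : ℝ) + 1) ^ (k * n + 1) + 1) < δ →
    ∃ B C : ℝ, ∀ T : ℝ, 1 ≤ T → (Exceptional d y z a b A B T).Finite ∧
      ((Exceptional d y z a b A B T).ncard : ℝ) ≤ C * T ^ (2 * ((n : ℝ) - 1) + δ)

theorem numbers_eq {n k : ℕ} (y z : Fin k → ℝ) (hy : ∀ x, 0 < y x) (q : Fin n → ℚ) (hq : ∀ j, (0 : ℝ) < q j) :
    numbers y z q = Pool.Agent.TH426.Tw.vale (Pool.Agent.TH426.Tw.lx y z) q := by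
  funext s
  rcases s with _ | ⟨j, x⟩
  · rfl
  · simp only [numbers, Pool.Agent.TH426.Tw.vale, Pool.Agent.TH426.Tw.lx]
    rw [Real.rpow_def_of_pos (mul_pos (hy x) (hq j))]

theorem general (k d : ℕ) (y z : Fin k → ℝ) (hy : ∀ x, 0 < y x)
    (hyz : ∀ c : Fin k → ℤ, (∀ x, |c x| ≤ d) → ∑ x, (c x : ℝ) * z x = 0 →
      ∑ x, (c x : ℝ) * (z x * Real.log (y x)) = 0 → c = 0) : AlmostAll d y z := by
  intro n a b A δ hn ha hab hA hδ
  obtain ⟨B, C, h⟩ := Pool.Agent.TH426.Tw.mainT (Fin k) n d hn (Pool.Agent.TH426.Tw.lx y z)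
    (Pool.Agent.TH426.Tw.lx_grows d y z hy hyz) a b hab
    (fun j x t ht => Pool.Agent.TH426.Tw.lx_an y z hy x (lt_of_lt_of_le (ha j) ht)) A δ hA
    (by simpa only [Fintype.card_fin] using hδ)
  refine ⟨B, C, fun T hT => ?_⟩
  obtain ⟨h1, h2⟩ := h T hT
  have hsub : Exceptional d y z a b A B T ⊆
      Pool.Agent.TH426.Tw.ExcT d (Pool.Agent.TH426.Tw.lx y z) a b A B T := by
    rintro q ⟨hq, P, hP0, hPd, hPc, hPs⟩
    refine ⟨hq, P, hP0, hPd, hPc, ?_⟩
    rwa [← numbers_eq y z hy q fun j => lt_of_lt_of_le (ha j) (hq j).1]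
  refine ⟨h1.subset hsub, le_trans ?_ h2⟩
  exact_mod_cast Set.ncard_le_ncard hsub h1

theorem pi_pos_log : 0 < Real.log Real.pi - 1 := by
  rw [sub_pos, Real.lt_log_iff_exp_lt Real.pi_pos]
  exact Real.exp_one_lt_three.trans Real.pi_gt_three

/-- The general theorem and the two examples. -/
theorem result :
    (∀ (k d : ℕ) (y z : Fin k → ℝ), (∀ x, 0 < y x) →
      (∀ c : Fin k → ℤ, (∀ x, |c x| ≤ d) → ∑ x, (c x : ℝ) * z x = 0 →
        ∑ x, (c x : ℝ) * (z x * Real.log (y x)) = 0 → c = 0) → AlmostAll d y z) ∧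
    (∀ d : ℕ, AlmostAll d ![Real.pi, Real.exp 1] ![Real.pi, Real.exp 1]) ∧
    (∀ d : ℕ, d ≤ 100 → AlmostAll d ![Real.pi, Real.exp 1, Real.pi, Real.exp 1]
      ![Real.pi, Real.exp 1, Real.exp 1, Real.pi]) := by
  have hπ := Real.pi_pos
  have he := Real.exp_pos 1
  have hl := pi_pos_log
  refine ⟨fun k d y z hy hyz => general k d y z hy hyz, ?_, ?_⟩
  · intro d
    refine general 2 d _ _ ?_ ?_
    · intro x
      fin_cases x
      · exact hπ
      · exact he
    · intro c _ h1 h2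
      simp only [Fin.sum_univ_two, Matrix.cons_val_zero, Matrix.cons_val_one, Real.log_exp, mul_one] at h1 h2
      have h3 : (c 0 : ℝ) * (Real.pi * (Real.log Real.pi - 1)) = 0 := by linear_combination h2 - h1
      have h4 : (c 0 : ℝ) = 0 := by
        rcases mul_eq_zero.1 h3 with h | h
        · exact h
        · exact absurd h (mul_pos hπ hl).ne'
      rw [h4, zero_mul, zero_add] at h1
      have h5 : (c 1 : ℝ) = 0 := by
        rcases mul_eq_zero.1 h1 with h | h
        · exact h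
        · exact absurd h he.ne'
      funext x
      fin_cases x
      · exact_mod_cast h4
      · exact_mod_cast h5
  · intro d hd
    have hd' : (d : ℤ) ≤ 100 := by exact_mod_cast hd
    refine general 4 d _ _ ?_ ?_
    · intro x
      fin_cases x
      · exact hπ
      · exact he
      · exact hπ
      · exact he
    · intro c hc h1 h2
      simp only [Fin.sum_univ_four, Matrix.cons_val_zero, Matrix.cons_val_one, Matrix.cons_val, Real.log_exp,
        mul_one] at h1 h2
      have h3 : ((c 0 : ℝ) * Real.pi + (c 2 : ℝ) * Real.exp 1) * (Real.log Real.pi - 1) = 0 := by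
        linear_combination h2 - h1
      have h4 : (c 0 : ℝ) * Real.pi + (c 2 : ℝ) * Real.exp 1 = 0 := by
        rcases mul_eq_zero.1 h3 with h | h
        · exact h
        · exact absurd h hl.ne'
      have h5 : (c 3 : ℝ) * Real.pi + (c 1 : ℝ) * Real.exp 1 = 0 := by linear_combination h1 - h4
      have h6 := Pool.Agent.TH426.Pw.pi_e (c 0) (c 2) 0 ((hc 0).trans hd') ((hc 2).trans hd') (by
        push_cast
        exact h4)
      have h7 := Pool.Agent.TH426.Pw.pi_e (c 3) (c 1) 0 ((hc 3).trans hd') ((hc 1).trans hd') (by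
        push_cast
        exact h5)
      funext x
      fin_cases x
      · exact h6.1
      · exact h7.2
      · exact h6.2
      · exact h7.1

end Pool.Agent.Results.MP_7fde5c_nt.RationalMultiples
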